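import Mathlib

set_option autoImplicit false

/-! The determinant as a product of its diagonal entries plus functions independent of one of them. -/

namespace Pool.Agent.U108.ML
open Finset

/-- the matrix with given diagonal and given entries off the diagonal -/
def withDiag {d : ℕ} (M : Matrix (Fin d) (Fin d) ℤ) (x : Fin d → ℤ) : Matrix (Fin d) (Fin d) ℤ :=
  Matrix.of fun k l => if k = l then x k else M k l

theorem det_withDiag {d : ℕ} (hd : 1 ≤ d) (M : Matrix (Fin d) (Fin d) ℤ) : ∃ R : Fin d → (Fin d → ℤ) → ℤ,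
    (∀ k x y, R k (Function.update x k y) = R k x) ∧ ∀ x, (withDiag M x).det = ∏ k, x k + ∑ k, R k x := by
  classical
  have hex : ∀ σ : Equiv.Perm (Fin d), σ ≠ 1 → ∃ k, σ k ≠ k := by
    intro σ hσ
    by_contra h
    push Not at h
    exact hσ (Equiv.ext fun k => by simpa using h k)
  obtain ⟨f, hf⟩ : ∃ f : Equiv.Perm (Fin d) → Fin d, ∀ σ, σ ≠ 1 → σ (f σ) ≠ f σ := by
    refine ⟨fun σ => if h : σ ≠ 1 then (hex σ h).choose else ⟨0, by omega⟩, fun σ hσ => ?_⟩
    have h1 := (hex σ hσ).choose_spec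
    have h2 : (fun σ : Equiv.Perm (Fin d) => if h : σ ≠ 1 then (hex σ h).choose else (⟨0, by omega⟩ : Fin d)) σ = (hex σ hσ).choose :=
      dif_pos hσ
    rw [h2]
    exact h1
  refine ⟨fun k x => ∑ σ ∈ (univ.filter (fun σ : Equiv.Perm (Fin d) => σ ≠ 1 ∧ f σ = k)),
    ((Equiv.Perm.sign σ : ℤ)) * ∏ l, withDiag M x (σ l) l, ?_, ?_⟩
  · intro k x y
    refine sum_congr rfl fun σ hσ => ?_
    rw [mem_filter] at hσ
    obtain ⟨_, h1, h2⟩ := hσ
    congr 1
    refine prod_congr rfl fun l _ => ?_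
    unfold withDiag
    rw [Matrix.of_apply, Matrix.of_apply]
    by_cases h3 : σ l = l
    · rw [if_pos h3, if_pos h3, h3]
      have h4 : l ≠ k := by
        intro h5
        have := hf σ h1
        rw [h2, ← h5] at this
        exact this h3
      rw [Function.update_of_ne h4]
    · rw [if_neg h3, if_neg h3]
  · intro x
    rw [Matrix.det_apply]
    have h1 : ∑ k, (∑ σ ∈ (univ.filter (fun σ : Equiv.Perm (Fin d) => σ ≠ 1 ∧ f σ = k)),
        ((Equiv.Perm.sign σ : ℤ)) * ∏ l, withDiag M x (σ l) l) =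
        ∑ σ ∈ univ.filter (fun σ : Equiv.Perm (Fin d) => σ ≠ 1), ((Equiv.Perm.sign σ : ℤ)) * ∏ l, withDiag M x (σ l) l := by
      rw [← sum_fiberwise_of_maps_to (s := univ.filter (fun σ : Equiv.Perm (Fin d) => σ ≠ 1)) (t := univ) (g := f)
        (fun _ _ => mem_univ _)]
      refine sum_congr rfl fun k _ => ?_
      rw [filter_filter]
    rw [h1, ← sum_filter_add_sum_filter_not univ (fun σ : Equiv.Perm (Fin d) => σ = 1)]
    congr 1
    rw [filter_eq' univ (1 : Equiv.Perm (Fin d)), if_pos (mem_univ _), sum_singleton]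
    simp [withDiag]

end Pool.Agent.U108.ML
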