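import Pool.Agent.U108.ML.G

set_option autoImplicit false

/-! All even integers near the multilinear values of thin families. -/

namespace Pool.Agent.U108.ML
open Finset
open Pool.Agent.TH212.EH (En)

theorem near_even_prod (h r m A B C W U m₀ : ℕ) (hh : 1 ≤ h) (hm : 2 ≤ m) (ε : ℝ) (hε : 0 < ε) (Q : ℕ → Prop)
    (hQ : ∀ n : ℕ, m₀ ≤ n → 2 ∣ n → Pool.Agent.W93.PG.WinP ε A n → Q n) : ∃ P₀ : ℕ,
    ∀ (N : Fin (r + 2) → ℕ) (P : ℕ), P₀ ≤ P → ∏ k, N k = P → (∀ k, P ≤ N k ^ m) →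
    ∀ (I : Fin (r + 2) → Type) [∀ k, Fintype (I k)] (u : ∀ k, I k → ℤ),
    (∀ k i, |u k i| ≤ N k) → (∀ k, (En h (u k) : ℝ) * N k ≤ Real.log P ^ C * (Fintype.card (I k) : ℝ) ^ (2 * h)) →
    ∀ c : ℤ, c ≠ 0 → |(c : ℝ)| ≤ Real.log P ^ B →
    ∀ R : Fin (r + 2) → (∀ k, I k) → ℤ, (∀ k i x, R k (Function.update i k x) = R k i) →
    (∀ i, ((c * ∏ k, u k (i k) + ∑ k, R k i : ℤ) : ℝ) ≤ Real.log P ^ B * P) →
    ∀ S : Finset (∀ k, I k), (∀ i ∈ S, ∃ n : ℕ, 0 < n ∧ Even n ∧ |(((n : ℤ) - (c * ∏ k, u k (i k) + ∑ k, R k i) : ℤ) : ℝ)| ≤ Real.log P ^ W ∧ ¬ Q n) →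
      (S.card : ℝ) ≤ Fintype.card (∀ k, I k) / Real.log P ^ U := by
  classical
  obtain ⟨h', C', P₁, hh', h1⟩ := energy_log h r m B C hh hm
  obtain ⟨N₀, h2⟩ := Pool.Agent.R459.near_even h' A 1 (C' + B + 1) W U m₀ hh' ε hε Q hQ
  have htend : Filter.Tendsto (fun n : ℕ => Real.log (n : ℝ)) Filter.atTop Filter.atTop :=
    Real.tendsto_log_atTop.comp tendsto_natCast_atTop_atTop
  obtain ⟨P₂, hP₂⟩ := Filter.eventually_atTop.1 ((htend.eventually_ge_atTop 2).and (Filter.eventually_ge_atTop 2))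
  refine ⟨P₁ + P₂ + N₀, ?_⟩
  intro N P hP hNP hNm I _ u hu hE c hc hcB R hR hv S hS
  have h3 := h1 N P (by omega) hNP hNm I u hu hE c hc hcB R hR
  obtain ⟨hl, hP2⟩ := hP₂ P (by omega)
  obtain ⟨v, hv'⟩ : ∃ v : (∀ k, I k) → ℤ, v = fun i => c * ∏ k, u k (i k) + ∑ k, R k i := ⟨_, rfl⟩
  rw [← hv'] at h3
  obtain ⟨L, hL⟩ : ∃ L : ℕ, L = ⌈Real.log P ^ B⌉₊ := ⟨_, rfl⟩
  have hlB : (1 : ℝ) ≤ Real.log P ^ B := one_le_pow₀ (by linarith)
  have hL1 : Real.log P ^ B ≤ L := by rw [hL]; exact Nat.le_ceil _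
  have hL2 : (L : ℝ) ≤ 2 * Real.log P ^ B := by
    have := Nat.ceil_lt_add_one (show (0 : ℝ) ≤ Real.log P ^ B by positivity)
    rw [← hL] at this
    linarith
  have hL0 : 1 ≤ L := by exact_mod_cast hlB.trans hL1
  have hPP : P ≤ P * L := Nat.le_mul_of_pos_right _ (by omega)
  have hlPP : Real.log P ≤ Real.log ((P * L : ℕ) : ℝ) :=
    Real.log_le_log (by exact_mod_cast (by omega : 0 < P)) (by exact_mod_cast hPP)
  have h4 := h2 (P * L) (by omega) (∀ k, I k) v (by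
    intro i
    have h5 := hv i
    have h6 : ((v i : ℤ) : ℝ) ≤ ((1 : ℕ) * (P * L : ℕ) : ℤ) := by
      rw [hv']
      refine h5.trans ?_
      push_cast
      nlinarith [show (0 : ℝ) ≤ P by positivity]
    exact_mod_cast h6) (by
    push_cast
    calc (En h' v : ℝ) * (P * L) = (En h' v : ℝ) * P * L := by ring
      _ ≤ (Real.log P ^ C' * (Fintype.card (∀ k, I k) : ℝ) ^ (2 * h')) * (2 * Real.log P ^ B) :=
        mul_le_mul h3 hL2 (by positivity) (by positivity)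
      _ = (Real.log P ^ C' * Real.log P ^ B * 2) * (Fintype.card (∀ k, I k) : ℝ) ^ (2 * h') := by ring
      _ ≤ Real.log ((P * L : ℕ) : ℝ) ^ (C' + B + 1) * (Fintype.card (∀ k, I k) : ℝ) ^ (2 * h') := by
        apply mul_le_mul_of_nonneg_right _ (by positivity)
        calc Real.log P ^ C' * Real.log P ^ B * 2 ≤ Real.log P ^ C' * Real.log P ^ B * Real.log P :=
              mul_le_mul_of_nonneg_left hl (by positivity)
          _ = Real.log P ^ (C' + B + 1) := by rw [pow_succ, pow_add]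
          _ ≤ _ := pow_le_pow_left₀ (by linarith) hlPP _
      _ = _ := by push_cast; rfl) S (by
    intro i hi
    obtain ⟨n, hn0, hne, hn1, hn2⟩ := hS i hi
    refine ⟨n, hn0, hne, ?_, hn2⟩
    rw [hv']
    exact hn1.trans (pow_le_pow_left₀ (by linarith) hlPP _))
  refine h4.trans ?_
  exact div_le_div_of_nonneg_left (Nat.cast_nonneg _) (by positivity) (pow_le_pow_left₀ (by linarith) hlPP _)

end Pool.Agent.U108.ML
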