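import Pool.Agent.U108.ML.G
import Pool.Agent.U108.ML.H

set_option autoImplicit false

/-! Thin families and the multilinear values of thin families: definitions, and the energy of the values. -/

namespace Pool.Agent.U108.ML.V
open Finset

/-- The additive energy of order `h` of a finite family `u`: the number of the solutions of
`u(x_1) + ⋯ + u(x_h) = u(y_1) + ⋯ + u(y_h)`. -/
noncomputable def energy (h : ℕ) {ι : Type} [Fintype ι] (u : ι → ℤ) : ℕ :=
  Nat.card {q : (Fin h → ι) × (Fin h → ι) // ∑ j, u (q.1 j) = ∑ j, u (q.2 j)}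

/-- `u` is a finite family of integers in `[-N, N]`, and its energy of order `h` is at most `(log P) ^ C` times
`(number of the elements) ^ (2 h) / N`. -/
def Thin (h C P N : ℕ) {ι : Type} [Fintype ι] (u : ι → ℤ) : Prop :=
  (∀ i, |u i| ≤ N) ∧ (energy h u : ℝ) * N ≤ Real.log P ^ C * (Fintype.card ι : ℝ) ^ (2 * h)

/-- `v(j) = c ∏ u_l(j_l) + ∑ R_l(j)` with an integer `c`, `0 < |c| ≤ (log P) ^ B`, and ARBITRARY functions `R_l` with
integral values such that `R_l` does not depend on the `l`-th coordinate; or `v(j)` is the determinant of the matrix with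
the diagonal entries `u_l(j_l)` and with fixed integral entries off the diagonal. -/
def Multilinear (B P : ℕ) {s : ℕ} {I : Fin s → Type} (u : ∀ l, I l → ℤ) (v : (∀ l, I l) → ℤ) : Prop :=
  (∃ (c : ℤ) (R : Fin s → (∀ l, I l) → ℤ), c ≠ 0 ∧ |(c : ℝ)| ≤ Real.log P ^ B ∧
    (∀ l j x, R l (Function.update j l x) = R l j) ∧ ∀ j, v j = c * ∏ l, u l (j l) + ∑ l, R l j) ∨
  (∃ M : Matrix (Fin s) (Fin s) ℤ, ∀ j, v j = (Matrix.of fun a b => if a = b then u a (j a) else M a b).det)

/-- every multilinear value is a product plus functions of fewer coordinates -/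
lemma shape {B P s : ℕ} (hs : 1 ≤ s) (hP : 1 ≤ Real.log P) {I : Fin s → Type} {u : ∀ l, I l → ℤ} {v : (∀ l, I l) → ℤ}
    (h : Multilinear B P u v) : ∃ (c : ℤ) (R : Fin s → (∀ l, I l) → ℤ), c ≠ 0 ∧ |(c : ℝ)| ≤ Real.log P ^ B ∧
    (∀ l j x, R l (Function.update j l x) = R l j) ∧ ∀ j, v j = c * ∏ l, u l (j l) + ∑ l, R l j := by
  rcases h with h | ⟨M, hM⟩
  · exact h
  · obtain ⟨R, hR1, hR2⟩ := Pool.Agent.U108.ML.det_withDiag hs M
    refine ⟨1, fun k i => R k (fun k => u k (i k)), one_ne_zero, ?_, ?_, ?_⟩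
    · rw [Int.cast_one, abs_one]
      exact one_le_pow₀ hP
    · intro k i x
      have h2 : (fun l => u l (Function.update i k x l)) = Function.update (fun l => u l (i l)) k (u k x) := by
        funext l
        by_cases hl : l = k
        · subst hl
          rw [Function.update_self, Function.update_self]
        · rw [Function.update_of_ne hl, Function.update_of_ne hl]
      simp only
      rw [h2, hR1]
    · intro i
      rw [hM i, one_mul]
      exact hR2 (fun k => u k (i k))

/-- the energy of multilinear values of thin families is minimal up to powers of the logarithm -/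
theorem energy_val (h s m B C : ℕ) (hh : 1 ≤ h) (hs : 2 ≤ s) : ∃ h' C' P₀ : ℕ, 1 ≤ h' ∧ 3 ≤ P₀ ∧
    ∀ (P : ℕ) (N : Fin s → ℕ), P₀ ≤ P → ∏ l, N l = P → (∀ l, P ≤ N l ^ m) →
      ∀ (I : Fin s → Type) [∀ l, Fintype (I l)] (u : ∀ l, I l → ℤ), (∀ l, Thin h C P (N l) (u l)) →
      ∀ v : (∀ l, I l) → ℤ, Multilinear B P u v →
      (Pool.Agent.TH212.EH.En h' v : ℝ) * P ≤ Real.log P ^ C' * (Fintype.card (∀ l, I l) : ℝ) ^ (2 * h') := by
  obtain ⟨r, rfl⟩ : ∃ r, s = r + 2 := ⟨s - 2, by omega⟩
  obtain ⟨h', C', P₁, hh', h1⟩ := Pool.Agent.U108.ML.energy_log h r (m + 2) B C hh (by omega)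
  refine ⟨h', C', P₁ + 3, hh', by omega, ?_⟩
  intro P N hP hNP hNm I _ u hu v hv
  have hlP : (1 : ℝ) ≤ Real.log P := by
    rw [Real.le_log_iff_exp_le (by exact_mod_cast (by omega : 0 < P))]
    have h3 : (3 : ℝ) ≤ P := by exact_mod_cast (by omega : 3 ≤ P)
    have := Real.exp_one_lt_d9
    linarith
  have hNm' : ∀ l, P ≤ N l ^ (m + 2) := by
    intro l
    have hN0 : 0 < N l := by
      rcases Nat.eq_zero_or_pos (N l) with h0 | h0
      · have h2 : ∏ l, N l = 0 := prod_eq_zero (mem_univ l) h0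
        omega
      · exact h0
    exact (hNm l).trans (Nat.pow_le_pow_right hN0 (by omega))
  obtain ⟨c, R, hc0, hcB, hR, hcR⟩ := shape (by omega : 1 ≤ r + 2) hlP hv
  have e : v = fun j => c * ∏ l, u l (j l) + ∑ l, R l j := funext hcR
  rw [e]
  exact h1 N P (by omega) hNP hNm' I u (fun l => (hu l).1) (fun l => (hu l).2) c hc0 hcB R hR

end Pool.Agent.U108.ML.V
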