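import Pool.Agent.U856.EH.M15
import Pool.Agent.U856.EH.M16
import Pool.Agent.U108.ML.V

set_option autoImplicit false

/-! Averages of discrepancies over arbitrary integers near the members of a family of nearly minimal energy, with absolute
values over all moduli. -/

namespace Pool.Agent.U108.ML
open Finset
open Pool.Agent.TH212.EH (En)
open Pool.Agent.U856.EH (DS level dual allS AllD)

theorem dual_near (E : ℕ → ℕ → ℤ → ℝ) (hE : AllD E) (p B C T U W : ℕ) : ∃ K N₀ : ℕ, ∀ N : ℕ, N₀ ≤ N →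
    ∀ (ι : Type) [Fintype ι] (v : ι → ℤ), (∀ i, |v i| ≤ B * N) →
    (En p v : ℝ) * N ≤ Real.log N ^ C * (Fintype.card ι : ℝ) ^ (2 * p) →
    ∀ (w : ι → ℝ) (a : ι → ℤ), (∀ i, |w i| ≤ Real.log N ^ T) → (∀ i, w i ≠ 0 → |((a i - v i : ℤ) : ℝ)| ≤ Real.log N ^ W) →
    ∀ x : ℕ → ℕ, (∀ q, x q ≤ B * N) → ∀ Q : ℕ, (Q : ℝ) ≤ N / Real.log N ^ K →
    ∑ q ∈ Icc 1 Q, (q.divisors.card : ℝ) ^ T * |∑ i ∈ univ.filter (fun i => Int.gcd (a i) q = 1), w i * E (x q) q (a i)| ≤
      Fintype.card ι * (N / Real.log N ^ U) := by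
  classical
  obtain ⟨K, N₁, h1⟩ := dual E hE p (B + 1) C T (U + W + 1) (W + 1)
  have htend : Filter.Tendsto (fun n : ℕ => Real.log (n : ℝ)) Filter.atTop Filter.atTop :=
    Real.tendsto_log_atTop.comp tendsto_natCast_atTop_atTop
  have hpow : ∀ᶠ n : ℕ in Filter.atTop, Real.log (n : ℝ) ^ (W + 1) ≤ n := by
    have h4 := (Real.isLittleO_pow_log_id_atTop (n := W + 1)).comp_tendsto tendsto_natCast_atTop_atTop
    have h5 := h4.bound one_pos
    filter_upwards [h5] with n hn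
    simp only [Function.comp, id, one_mul, Real.norm_eq_abs] at hn
    rw [abs_of_nonneg (Nat.cast_nonneg n : (0 : ℝ) ≤ (n : ℝ))] at hn
    exact (le_abs_self _).trans hn
  obtain ⟨P₂, hP₂⟩ := Filter.eventually_atTop.1 ((htend.eventually_ge_atTop 5).and hpow)
  refine ⟨K, N₁ + P₂, fun N hN ι _ v hv hEn w a hw ha x hx Q hQ => ?_⟩
  obtain ⟨hl, hW⟩ := hP₂ N (by omega)
  obtain ⟨L, hL⟩ : ∃ L : ℕ, L = ⌊Real.log N ^ W⌋₊ := ⟨_, rfl⟩
  have hlW : (1 : ℝ) ≤ Real.log N ^ W := one_le_pow₀ (by linarith)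
  have hL1 : (L : ℝ) ≤ Real.log N ^ W := by rw [hL]; exact Nat.floor_le (by positivity)
  have hLQ : (L : ℝ) ≤ N := by
    refine hL1.trans (le_trans ?_ hW)
    rw [pow_succ]
    exact le_mul_of_one_le_right (by positivity) (by linarith)
  have hLQ' : (L : ℤ) ≤ N := by exact_mod_cast hLQ
  obtain ⟨H, hH⟩ : ∃ H : Finset ℤ, H = Icc (-(L : ℤ)) L := ⟨_, rfl⟩
  have hHc : (H.card : ℝ) ≤ Real.log N ^ (W + 1) := by
    rw [hH, Int.card_Icc]
    have e : (((L : ℤ) + 1 - -(L : ℤ)).toNat : ℝ) = 2 * L + 1 := by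
      have : ((L : ℤ) + 1 - -(L : ℤ)).toNat = 2 * L + 1 := by omega
      rw [this]
      push_cast
      ring
    rw [e]
    calc 2 * (L : ℝ) + 1 ≤ 2 * Real.log N ^ W + Real.log N ^ W := by linarith
      _ = 3 * Real.log N ^ W := by ring
      _ ≤ Real.log N ^ W * Real.log N := by nlinarith
      _ = _ := by rw [pow_succ]
  have hHB : ∀ τ ∈ H, |τ| ≤ (B + 1 : ℕ) * (N : ℤ) := by
    intro t ht
    rw [hH, mem_Icc] at ht
    have h7 : |t| ≤ L := abs_le.2 ⟨ht.1, ht.2⟩
    have h8 : (0 : ℤ) ≤ B * N := by positivity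
    push_cast
    linarith
  have hmem : ∀ i, w i ≠ 0 → a i - v i ∈ H := by
    intro i hi
    have h5 := ha i hi
    have h6 : ((|a i - v i|.toNat : ℕ) : ℝ) ≤ Real.log N ^ W := by
      have e : ((|a i - v i|.toNat : ℕ) : ℤ) = |a i - v i| := Int.toNat_of_nonneg (abs_nonneg _)
      have e2 : ((|a i - v i|.toNat : ℕ) : ℝ) = |((a i - v i : ℤ) : ℝ)| := by
        rw [← Int.cast_natCast, e]
        push_cast
        rfl
      rw [e2]
      exact h5
    have h7 : |a i - v i|.toNat ≤ L := by rw [hL]; exact Nat.le_floor h6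
    have h8 : |a i - v i| ≤ L := by omega
    rw [hH, mem_Icc]
    exact ⟨(abs_le.1 h8).1, (abs_le.1 h8).2⟩
  have each : ∀ t ∈ H, ∑ q ∈ Icc 1 Q, (q.divisors.card : ℝ) ^ T * |∑ i ∈ univ.filter (fun i => Int.gcd (v i + t) q = 1),
      (if a i - v i = t then w i else 0) * E (x q) q (v i + t)| ≤ N * Fintype.card ι / Real.log N ^ (U + W + 1) := by
    intro t ht
    refine h1 N (by omega) ι v (fun i => (hv i).trans ?_) hEn H hHc hHB (fun i => if a i - v i = t then w i else 0) ?_ Q hQ x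
      (fun q => (hx q).trans (Nat.mul_le_mul_right _ (by omega))) (fun _ => t) (fun _ => ht)
    · push_cast
      have : (0 : ℤ) ≤ N := Int.natCast_nonneg _
      nlinarith
    · intro i
      split_ifs
      · exact hw i
      · rw [abs_zero]; positivity
  have hsum : ∀ q : ℕ, ∑ i ∈ univ.filter (fun i => Int.gcd (a i) q = 1), w i * E (x q) q (a i) =
      ∑ t ∈ H, ∑ i ∈ univ.filter (fun i => Int.gcd (v i + t) q = 1), (if a i - v i = t then w i else 0) * E (x q) q (v i + t) := by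
    intro q
    simp only [sum_filter]
    rw [sum_comm]
    apply sum_congr rfl
    intro i _
    by_cases hwi : w i = 0
    · simp [hwi]
    · rw [sum_eq_single (a i - v i)]
      · have e : v i + (a i - v i) = a i := by ring
        rw [e, if_pos rfl]
      · intro t _ hne
        have h9 : ¬ (a i - v i = t) := fun h => hne h.symm
        simp [h9]
      · intro hn
        exact absurd (hmem i hwi) hn
  calc ∑ q ∈ Icc 1 Q, (q.divisors.card : ℝ) ^ T * |∑ i ∈ univ.filter (fun i => Int.gcd (a i) q = 1), w i * E (x q) q (a i)|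
      ≤ ∑ q ∈ Icc 1 Q, ∑ t ∈ H, (q.divisors.card : ℝ) ^ T * |∑ i ∈ univ.filter (fun i => Int.gcd (v i + t) q = 1),
        (if a i - v i = t then w i else 0) * E (x q) q (v i + t)| := by
        apply sum_le_sum
        intro q _
        rw [hsum q, ← mul_sum]
        exact mul_le_mul_of_nonneg_left (abs_sum_le_sum_abs _ _) (by positivity)
    _ = ∑ t ∈ H, ∑ q ∈ Icc 1 Q, (q.divisors.card : ℝ) ^ T * |∑ i ∈ univ.filter (fun i => Int.gcd (v i + t) q = 1),
        (if a i - v i = t then w i else 0) * E (x q) q (v i + t)| := sum_comm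
    _ ≤ ∑ _t ∈ H, (N : ℝ) * Fintype.card ι / Real.log N ^ (U + W + 1) := sum_le_sum each
    _ = H.card * ((N : ℝ) * Fintype.card ι / Real.log N ^ (U + W + 1)) := by rw [sum_const, nsmul_eq_mul]
    _ ≤ Real.log N ^ (W + 1) * ((N : ℝ) * Fintype.card ι / Real.log N ^ (U + W + 1)) := by
        apply mul_le_mul_of_nonneg_right hHc
        positivity
    _ = _ := by
        rw [show U + W + 1 = (W + 1) + U by ring, pow_add _ (W + 1) U]
        field_simp

/-- bounds for all the moduli of a dyadic range with few exceptions -/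
lemma few_moduli (F : ℕ → ℝ) (S : ℝ) (X T U Q : ℕ) (L : ℝ) (hL : 2 ≤ L) (hX : 0 < X) (hS : 0 < S)
    (h : ∑ q ∈ Icc 1 Q, (q.divisors.card : ℝ) ^ T * |F q| ≤ S * (X / L ^ (2 * U + 1))) (R : ℕ) (hR : 2 * R ≤ Q) :
    (((Ioc R (2 * R)).filter (fun m : ℕ => S * (X / (m * L ^ U)) < |F m|)).card : ℝ) ≤ R / L ^ U := by
  classical
  have hL0 : 0 < L := by linarith
  have hX0 : (0 : ℝ) < X := by exact_mod_cast hX
  rcases Nat.eq_zero_or_pos R with h0 | hR0
  · rw [h0]
    simp
  have hRr : (0 : ℝ) < R := by exact_mod_cast hR0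
  obtain ⟨G, hG⟩ : ∃ G, G = (Ioc R (2 * R)).filter (fun m : ℕ => S * (X / (m * L ^ U)) < |F m|) := ⟨_, rfl⟩
  rw [← hG]
  have h1 : ∀ m ∈ G, S * (X / (2 * R * L ^ U)) ≤ (m.divisors.card : ℝ) ^ T * |F m| := by
    intro m hm
    rw [hG, mem_filter, mem_Ioc] at hm
    have hm0 : (0 : ℝ) < m := by exact_mod_cast (by omega : 0 < m)
    have hτ : (1 : ℝ) ≤ (m.divisors.card : ℝ) := by
      have : 0 < m.divisors.card := card_pos.2 ⟨1, Nat.mem_divisors.2 ⟨one_dvd _, by omega⟩⟩
      exact_mod_cast this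
    have h2 : S * (X / (2 * R * L ^ U)) ≤ S * (X / (m * L ^ U)) := by
      apply mul_le_mul_of_nonneg_left _ hS.le
      apply div_le_div_of_nonneg_left hX0.le (by positivity)
      apply mul_le_mul_of_nonneg_right _ (by positivity)
      have : m ≤ 2 * R := hm.1.2
      exact_mod_cast this
    refine h2.trans (hm.2.le.trans ?_)
    exact le_mul_of_one_le_left (abs_nonneg _) (one_le_pow₀ hτ)
  have h3 : (G.card : ℝ) * (S * (X / (2 * R * L ^ U))) ≤ S * (X / L ^ (2 * U + 1)) := by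
    rw [← nsmul_eq_mul, ← sum_const]
    refine (sum_le_sum h1).trans (le_trans ?_ h)
    apply sum_le_sum_of_subset_of_nonneg
    · intro m hm
      rw [hG, mem_filter, mem_Ioc] at hm
      rw [mem_Icc]
      omega
    · intro m _ _
      positivity
  have e1 : S * (X / L ^ (2 * U + 1)) = (2 * R / L ^ (U + 1)) * (S * (X / (2 * R * L ^ U))) := by
    have : L ^ (2 * U + 1) = L ^ (U + 1) * L ^ U := by rw [← pow_add]; congr 1; omega
    rw [this]
    field_simp
  rw [e1] at h3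
  have h4 : (G.card : ℝ) ≤ 2 * R / L ^ (U + 1) := le_of_mul_le_mul_right h3 (by positivity)
  refine h4.trans ?_
  rw [pow_succ, div_le_div_iff₀ (by positivity) (by positivity)]
  have : 0 < L ^ U := by positivity
  have h5 : 0 ≤ (R : ℝ) * L ^ U := by positivity
  nlinarith

end Pool.Agent.U108.ML
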