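import Pool.Agent.U108.ML.G
import Pool.Agent.U108.ML.H
import Pool.Agent.TH935.TF9

set_option autoImplicit false

/-! All the vectors of integers near the vectors of multilinear values of thin families. -/

namespace Pool.Agent.U108.ML
open Finset
open Pool.Agent.TH212.EH (En)

/-- a property of vectors of integers holds for almost all members of all products of families of nearly minimal energy -/
def CritB {k : ℕ} (B : ℕ) (P : ℕ → (Fin k → ℤ) → Prop) : Prop :=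
  ∀ h C U : ℕ, ∃ N₀ : ℕ, ∀ N : ℕ, N₀ ≤ N → ∀ (x : Fin k → ℕ) (s : Fin k → ℕ → ℤ),
    (∀ i, ∀ j ∈ Icc 1 (x i), |s i j| ≤ B * N) →
    (∀ i, (Pool.Agent.H373R2.T7.energy h (x i) (s i) : ℝ) * N ≤ Real.log N ^ C * (x i : ℝ) ^ (2 * h)) →
    ∀ 𝒮 : Finset (Fin k → ℕ), 𝒮 ⊆ Fintype.piFinset (fun i => Icc 1 (x i)) →
    (∀ q ∈ 𝒮, ¬ P N (fun i => s i (q i))) → (𝒮.card : ℝ) ≤ (∏ i, (x i : ℝ)) / Real.log N ^ U

lemma En_shift (h : ℕ) {ι : Type} [Fintype ι] (v : ι → ℤ) (t : ℤ) : En h (fun j => v j + t) = En h v := by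
  unfold En
  congr 1
  simp only [sum_add_distrib, add_left_inj]

theorem near_fam {k : ℕ} (r h m B C W U : ℕ) (hh : 1 ≤ h) (hm : 2 ≤ m) (P : ℕ → (Fin k → ℤ) → Prop)
    (hc : CritB (B + 1) P) : ∃ P₀ : ℕ, ∀ (Q : ℕ) (N : Fin k → Fin (r + 2) → ℕ), P₀ ≤ Q → (∀ i, ∏ l, N i l = Q) →
    (∀ i l, Q ≤ N i l ^ m) →
    ∀ (I : Fin k → Fin (r + 2) → Type) [∀ i l, Fintype (I i l)] (u : ∀ i l, I i l → ℤ),
    (∀ i l j, |u i l j| ≤ N i l) →
    (∀ i l, (En h (u i l) : ℝ) * N i l ≤ Real.log Q ^ C * (Fintype.card (I i l) : ℝ) ^ (2 * h)) →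
    ∀ c : Fin k → ℤ, (∀ i, c i ≠ 0) → (∀ i, |(c i : ℝ)| ≤ Real.log Q ^ B) →
    ∀ R : ∀ i, Fin (r + 2) → (∀ l, I i l) → ℤ, (∀ i l j x, R i l (Function.update j l x) = R i l j) →
    ∀ v : ∀ i, (∀ l, I i l) → ℤ, (∀ i j, v i j = c i * ∏ l, u i l (j l) + ∑ l, R i l j) →
    (∀ i j, |v i j| ≤ B * Q) →
    ∀ S : Finset (∀ i, ∀ l, I i l),
    (∀ q ∈ S, ∃ a : Fin k → ℤ, (∀ i, |(a i : ℝ) - v i (q i)| ≤ Real.log Q ^ W) ∧ ¬ P Q a) →
    (S.card : ℝ) ≤ (∏ i, (Fintype.card (∀ l, I i l) : ℝ)) / Real.log Q ^ U := by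
  classical
  obtain ⟨h', C', P₁, hh', h1⟩ := energy_log h r m B C hh hm
  obtain ⟨N₀, h2⟩ := Pool.Agent.TH935.TF.transferP h' (B + 1) C' (U + k * (W + 1)) P (hc h' C' (U + k * (W + 1)))
  obtain ⟨n3, h3⟩ := Pool.Agent.H373R2.T7.ev_L' 6
  have htend : Filter.Tendsto (fun n : ℕ => Real.log (n : ℝ)) Filter.atTop Filter.atTop :=
    Real.tendsto_log_atTop.comp tendsto_natCast_atTop_atTop
  have hpow : ∀ᶠ n : ℕ in Filter.atTop, Real.log (n : ℝ) ^ (W + 1) ≤ n := by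
    have h4 := (Real.isLittleO_pow_log_id_atTop (n := W + 1)).comp_tendsto tendsto_natCast_atTop_atTop
    have h5 := h4.bound one_pos
    filter_upwards [h5] with n hn
    simp only [Function.comp, id, one_mul, Real.norm_eq_abs] at hn
    rw [abs_of_nonneg (Nat.cast_nonneg n : (0 : ℝ) ≤ (n : ℝ))] at hn
    exact (le_abs_self _).trans hn
  obtain ⟨P₂, hP₂⟩ := Filter.eventually_atTop.1 ((htend.eventually_ge_atTop 5).and hpow)
  refine ⟨P₁ + P₂ + N₀, ?_⟩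
  intro Q N hQ hNQ hNm I _ u hu hE c hc0 hcB R hR v hv hvb S hS
  obtain ⟨hl, hW⟩ := hP₂ Q (by omega)
  have hEn : ∀ i, (En h' (v i) : ℝ) * Q ≤ Real.log Q ^ C' * (Fintype.card (∀ l, I i l) : ℝ) ^ (2 * h') := by
    intro i
    have h5 := h1 (N i) Q (by omega) (hNQ i) (hNm i) (I i) (u i) (hu i) (hE i) (c i) (hc0 i) (hcB i) (R i) (hR i)
    have e : v i = fun j => c i * ∏ l, u i l (j l) + ∑ l, R i l j := funext (hv i)
    rw [e]
    exact h5
  obtain ⟨L, hL⟩ : ∃ L : ℕ, L = ⌊Real.log Q ^ W⌋₊ := ⟨_, rfl⟩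
  have hlW : (1 : ℝ) ≤ Real.log Q ^ W := one_le_pow₀ (by linarith)
  have hL1 : (L : ℝ) ≤ Real.log Q ^ W := by rw [hL]; exact Nat.floor_le (by positivity)
  have hLQ : (L : ℝ) ≤ Q := by
    refine hL1.trans (le_trans ?_ hW)
    rw [pow_succ]
    exact le_mul_of_one_le_right (by positivity) (by linarith)
  have hLQ' : (L : ℤ) ≤ Q := by exact_mod_cast hLQ
  obtain ⟨𝒯, h𝒯⟩ : ∃ 𝒯 : Finset (Fin k → ℤ), 𝒯 = Fintype.piFinset (fun _ => Icc (-(L : ℤ)) L) := ⟨_, rfl⟩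
  have h𝒯c : (𝒯.card : ℝ) ≤ Real.log Q ^ (k * (W + 1)) := by
    rw [h𝒯, Fintype.card_piFinset_const, Int.card_Icc, show k * (W + 1) = (W + 1) * k by ring, pow_mul]
    push_cast
    apply pow_le_pow_left₀ (Nat.cast_nonneg _)
    have e : (((L : ℤ) + 1 - -(L : ℤ)).toNat : ℝ) = 2 * L + 1 := by
      have : ((L : ℤ) + 1 - -(L : ℤ)).toNat = 2 * L + 1 := by omega
      rw [this]
      push_cast
      ring
    rw [e]
    calc 2 * (L : ℝ) + 1 ≤ 2 * Real.log Q ^ W + Real.log Q ^ W := by linarith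
      _ = 3 * Real.log Q ^ W := by ring
      _ ≤ Real.log Q ^ W * Real.log Q := by nlinarith
      _ = _ := by rw [pow_succ]
  have each : ∀ t ∈ 𝒯, ((S.filter (fun q => ¬ P Q (fun i => v i (q i) + t i))).card : ℝ) ≤
      (∏ i, (Fintype.card (∀ l, I i l) : ℝ)) / Real.log Q ^ (U + k * (W + 1)) := by
    intro t ht
    rw [h𝒯, Fintype.mem_piFinset] at ht
    refine h2 Q (by omega) (fun i => ∀ l, I i l) (fun i j => v i j + t i) ?_ ?_ _ ?_
    · intro i j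
      have h5 := hvb i j
      have h6 := mem_Icc.1 (ht i)
      have h7 : |t i| ≤ L := abs_le.2 ⟨h6.1, h6.2⟩
      calc |v i j + t i| ≤ |v i j| + |t i| := abs_add_le _ _
        _ ≤ B * Q + Q := by linarith
        _ = _ := by push_cast; ring
    · intro i
      have e : Pool.Agent.TH935.GF.En h' (fun j => v i j + t i) = En h' (v i) := En_shift h' (v i) (t i)
      rw [e]
      exact hEn i
    · intro q hq
      exact (mem_filter.1 hq).2
  have hcov : S ⊆ 𝒯.biUnion (fun t => S.filter (fun q => ¬ P Q (fun i => v i (q i) + t i))) := by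
    intro q hq
    obtain ⟨a, ha, hna⟩ := hS q hq
    rw [mem_biUnion]
    refine ⟨fun i => a i - v i (q i), ?_, ?_⟩
    · rw [h𝒯, Fintype.mem_piFinset]
      intro i
      have h5 := ha i
      have h6 : ((|a i - v i (q i)|.toNat : ℕ) : ℝ) ≤ Real.log Q ^ W := by
        have e : ((|a i - v i (q i)|.toNat : ℕ) : ℤ) = |a i - v i (q i)| := Int.toNat_of_nonneg (abs_nonneg _)
        have e2 : ((|a i - v i (q i)|.toNat : ℕ) : ℝ) = |(a i : ℝ) - v i (q i)| := by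
          rw [← Int.cast_natCast, e]
          push_cast
          rfl
        rw [e2]
        exact h5
      have h7 : |a i - v i (q i)|.toNat ≤ L := by rw [hL]; exact Nat.le_floor h6
      have h8 : |a i - v i (q i)| ≤ L := by omega
      rw [mem_Icc]
      exact ⟨(abs_le.1 h8).1, (abs_le.1 h8).2⟩
    · rw [mem_filter]
      refine ⟨hq, ?_⟩
      have e : (fun i => v i (q i) + (a i - v i (q i))) = a := by
        funext i
        ring
      rw [e]
      exact hna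
  have hpi : 0 ≤ (∏ i, (Fintype.card (∀ l, I i l) : ℝ)) := by positivity
  calc (S.card : ℝ) ≤ ((𝒯.biUnion (fun t => S.filter (fun q => ¬ P Q (fun i => v i (q i) + t i)))).card : ℝ) := by
        exact_mod_cast card_le_card hcov
    _ ≤ ∑ t ∈ 𝒯, ((S.filter (fun q => ¬ P Q (fun i => v i (q i) + t i))).card : ℝ) := by
        exact_mod_cast card_biUnion_le
    _ ≤ ∑ t ∈ 𝒯, (∏ i, (Fintype.card (∀ l, I i l) : ℝ)) / Real.log Q ^ (U + k * (W + 1)) := sum_le_sum each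
    _ = 𝒯.card * ((∏ i, (Fintype.card (∀ l, I i l) : ℝ)) / Real.log Q ^ (U + k * (W + 1))) := by
        rw [sum_const, nsmul_eq_mul]
    _ ≤ Real.log Q ^ (k * (W + 1)) * ((∏ i, (Fintype.card (∀ l, I i l) : ℝ)) / Real.log Q ^ (U + k * (W + 1))) := by
        apply mul_le_mul_of_nonneg_right h𝒯c
        positivity
    _ = _ := by
        rw [pow_add]
        field_simp

end Pool.Agent.U108.ML
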